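import Mathlib

/-!
# Tight `(k, 0)`-stable graphs

For every `k ≥ 5` the only tight `(k, 0)`-stable graphs are the complete graphs on `k + 1` and
`k + 2` vertices, and `5` is the least number with this property.
-/

namespace Pool.Agent.Results.MP_476b05_co.TightStable

open Finset

variable {V : Type*}

/-- `G` is `(k, l)`-stable: deleting any `k` vertices lowers the independence number by at most
`l`. -/
def IsStable (k l : ℕ) (G : SimpleGraph V) : Prop :=
  ∀ S : Finset V, S.card = k →
    (G.indepNum : ℤ) - l ≤ ((G.induce {v : V | v ∉ S}).indepNum : ℤ)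

/-- `G` is tight `(k, 0)`-stable: it is `(k, 0)`-stable and its independence number is
`⌊(n - k + 1) / 2⌋`, where `n` is the number of vertices. -/
def IsTightStable [Fintype V] (k : ℕ) (G : SimpleGraph V) : Prop :=
  IsStable k 0 G ∧ (G.indepNum : ℤ) = ((Fintype.card V : ℤ) - k + 1) / 2

/-! ### Maximum independent sets -/

section Core

variable [Fintype V] [DecidableEq V] {G : SimpleGraph V} {a k : ℕ}

/-- An independent set of size `a`. -/
structure MI (G : SimpleGraph V) (a : ℕ) (I : Finset V) : Prop where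
  indep : ∀ x ∈ I, ∀ y ∈ I, ¬ G.Adj x y
  card_eq : I.card = a

/-- `a` is an upper bound for the sizes of the independent sets. -/
def Bd (G : SimpleGraph V) (a : ℕ) : Prop :=
  ∀ I : Finset V, (∀ x ∈ I, ∀ y ∈ I, ¬ G.Adj x y) → I.card ≤ a

/-- After deletion of any at most `k` vertices an independent set of size `a` remains. -/
def St (G : SimpleGraph V) (a k : ℕ) : Prop :=
  ∀ S : Finset V, S.card ≤ k → ∃ I : Finset V, MI G a I ∧ Disjoint I S

open Classical in
/-- Neighbours of a set. -/
noncomputable def nb (G : SimpleGraph V) (X : Finset V) : Finset V :=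
  univ.filter fun v => ∃ x ∈ X, G.Adj x v

omit [DecidableEq V] in
theorem mem_nb {X : Finset V} {v : V} : v ∈ nb G X ↔ ∃ x ∈ X, G.Adj x v := by
  simp [nb]

/-- Base inequality. -/
theorem base_ineq (hB : Bd G a) {I X : Finset V} (hI : MI G a I)
    (hX : ∀ x ∈ X, ∀ y ∈ X, ¬ G.Adj x y) : (X \ I).card ≤ (nb G X ∩ I).card := by
  have h := hB ((I \ nb G X) ∪ (X \ I)) (by
    intro x hx y hy hxy
    rw [mem_union, mem_sdiff, mem_sdiff] at hx hy
    rcases hx with hx | hx <;> rcases hy with hy | hy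
    · exact hI.indep x hx.1 y hy.1 hxy
    · exact hx.2 (mem_nb.2 ⟨y, hy.1, hxy.symm⟩)
    · exact hy.2 (mem_nb.2 ⟨x, hx.1, hxy⟩)
    · exact hX x hx.1 y hy.1 hxy)
  have hd : Disjoint (I \ nb G X) (X \ I) := by
    rw [Finset.disjoint_left]
    intro x hx hx'
    exact (mem_sdiff.1 hx').2 (mem_sdiff.1 hx).1
  rw [card_union_of_disjoint hd] at h
  have h2 : (I \ nb G X).card + (nb G X ∩ I).card = I.card := by
    rw [inter_comm]
    exact card_sdiff_add_card_inter I (nb G X)
  have := hI.card_eq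
  omega

/-- Invariant for the union and intersection of a family of maximum independent sets. -/
structure PP (G : SimpleGraph V) (a : ℕ) (X Y : Finset V) : Prop where
  sub : X ⊆ Y
  non : ∀ x ∈ X, ∀ y ∈ Y, ¬ G.Adj x y
  le : 2 * a ≤ X.card + Y.card

theorem PP.of_MI {I : Finset V} (hI : MI G a I) : PP G a I I where
  sub := Subset.refl _
  non := hI.indep
  le := by have := hI.card_eq; omega

theorem PP.step (hB : Bd G a) {X Y I : Finset V} (h : PP G a X Y) (hI : MI G a I) :
    PP G a (X ∩ I) (Y ∪ I) where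
  sub := fun x hx => mem_union_left _ (h.sub (mem_inter.1 hx).1)
  non := by
    intro x hx y hy
    rw [mem_inter] at hx
    rcases mem_union.1 hy with hy | hy
    · exact h.non x hx.1 y hy
    · exact hI.indep x hx.2 y hy
  le := by
    have h1 := hB ((I ∩ Y) ∪ (X \ I)) (by
      intro x hx y hy hxy
      rw [mem_union, mem_inter, mem_sdiff] at hx hy
      rcases hx with hx | hx <;> rcases hy with hy | hy
      · exact hI.indep x hx.1 y hy.1 hxy
      · exact h.non y hy.1 x hx.2 hxy.symm
      · exact h.non x hx.1 y hy.2 hxy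
      · exact h.non x hx.1 y (h.sub hy.1) hxy)
    have hd : Disjoint (I ∩ Y) (X \ I) := by
      rw [Finset.disjoint_left]
      intro x hx hx'
      exact (mem_sdiff.1 hx').2 (mem_inter.1 hx).1
    rw [card_union_of_disjoint hd] at h1
    have h2 : (X \ I).card + (X ∩ I).card = X.card := card_sdiff_add_card_inter X I
    have h3 : (Y ∪ I).card + (Y ∩ I).card = Y.card + I.card := card_union_add_card_inter Y I
    rw [inter_comm Y I] at h3
    have := hI.card_eq
    have := h.le
    omega

/-- Invariant for the expansion lemma. -/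
structure QQ (G : SimpleGraph V) (X T U : Finset V) : Prop where
  non : ∀ x ∈ X ∩ T, ∀ u ∈ U, ¬ G.Adj x u
  le : (X \ T).card ≤ (nb G X ∩ U).card

theorem QQ.of_MI (hB : Bd G a) {X I : Finset V} (hX : ∀ x ∈ X, ∀ y ∈ X, ¬ G.Adj x y)
    (hI : MI G a I) : QQ G X I I where
  non := fun x hx u hu => hI.indep x (mem_inter.1 hx).2 u hu
  le := base_ineq hB hI hX

theorem QQ.step (hB : Bd G a) {X T U I : Finset V} (hX : ∀ x ∈ X, ∀ y ∈ X, ¬ G.Adj x y)
    (h : QQ G X T U) (hI : MI G a I) : QQ G X (T ∩ I) (U ∪ I) where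
  non := by
    intro x hx u hu
    rw [mem_inter, mem_inter] at hx
    rcases mem_union.1 hu with hu | hu
    · exact h.non x (mem_inter.2 ⟨hx.1, hx.2.1⟩) u hu
    · exact hI.indep x hx.2.2 u hu
  le := by
    have h1 := base_ineq hB (X := X ∩ T) hI
      (fun x hx y hy => hX x (mem_inter.1 hx).1 y (mem_inter.1 hy).1)
    have h2 : (X \ (T ∩ I)).card ≤ (X \ T).card + ((X ∩ T) \ I).card := by
      refine le_trans (card_le_card ?_) (card_union_le _ _)
      intro x hx
      rw [mem_sdiff, mem_inter] at hx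
      by_cases hxT : x ∈ T
      · refine mem_union_right _ (mem_sdiff.2 ⟨mem_inter.2 ⟨hx.1, hxT⟩, fun hxI => hx.2 ⟨hxT, hxI⟩⟩)
      · exact mem_union_left _ (mem_sdiff.2 ⟨hx.1, hxT⟩)
    have h3 : (nb G X ∩ U).card + (nb G (X ∩ T) ∩ I).card ≤ (nb G X ∩ (U ∪ I)).card := by
      rw [← card_union_of_disjoint]
      · apply card_le_card
        intro u hu
        rw [mem_union, mem_inter, mem_inter] at hu
        rcases hu with hu | hu
        · exact mem_inter.2 ⟨hu.1, mem_union_left _ hu.2⟩
        · refine mem_inter.2 ⟨?_, mem_union_right _ hu.2⟩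
          obtain ⟨x, hx, hxu⟩ := mem_nb.1 hu.1
          exact mem_nb.2 ⟨x, (mem_inter.1 hx).1, hxu⟩
      · rw [Finset.disjoint_left]
        intro u hu hu'
        obtain ⟨x, hx, hxu⟩ := mem_nb.1 (mem_inter.1 hu').1
        exact h.non x hx u (mem_inter.1 hu).2 hxu
    have := h.le
    omega

/-- Expansion: a nonempty independent set `X` has at least `|X| + k - 1` neighbours. -/
theorem expansion (hk : 1 ≤ k) (hB : Bd G a) (hS : St G a k) {X : Finset V} (hne : X.Nonempty)
    (hX : ∀ x ∈ X, ∀ y ∈ X, ¬ G.Adj x y) : X.card + k ≤ (nb G X).card + 1 := by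
  obtain ⟨S, hSsub, hScard⟩ := exists_subset_card_eq (min_le_right (k - 1) (nb G X).card)
  have key : ∀ X' : Finset V, X'.Nonempty → X' ⊆ X →
      ∃ T U : Finset V, QQ G X T U ∧ Disjoint U S ∧ Disjoint T X' := by
    intro X' hX'
    induction hX' using Finset.Nonempty.cons_induction with
    | singleton x =>
      intro _
      obtain ⟨I, hI, hd⟩ := hS (insert x S) (by
        refine le_trans (card_insert_le _ _) ?_
        have := min_le_left (k - 1) (nb G X).card
        omega)
      rw [disjoint_insert_right] at hd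
      exact ⟨I, I, QQ.of_MI hB hX hI, hd.2, by simpa using hd.1⟩
    | cons x X' hx hX' ih =>
      intro hsub
      obtain ⟨T, U, hQ, hU, hT⟩ := ih (fun y hy => hsub (mem_cons_of_mem hy))
      obtain ⟨I, hI, hd⟩ := hS (insert x S) (by
        refine le_trans (card_insert_le _ _) ?_
        have := min_le_left (k - 1) (nb G X).card
        omega)
      rw [disjoint_insert_right] at hd
      refine ⟨T ∩ I, U ∪ I, hQ.step hB hX hI, ?_, ?_⟩
      · rw [disjoint_union_left]
        exact ⟨hU, hd.2⟩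
      · rw [Finset.disjoint_left]
        intro y hy hy'
        rw [mem_inter] at hy
        rcases mem_cons.1 hy' with rfl | hy'
        · exact hd.1 hy.2
        · exact (Finset.disjoint_left.1 hT) hy.1 hy'
  obtain ⟨T, U, hQ, hU, hT⟩ := key X hne (Subset.refl _)
  have h1 : X \ T = X := by
    rw [Finset.sdiff_eq_self_iff_disjoint]
    exact hT.symm
  have h2 := hQ.le
  rw [h1] at h2
  have h3 : (nb G X ∩ U).card ≤ (nb G X).card - S.card := by
    rw [← card_sdiff_of_subset hSsub]
    apply card_le_card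
    intro u hu
    rw [mem_inter] at hu
    exact mem_sdiff.2 ⟨hu.1, fun huS => (Finset.disjoint_left.1 hU) hu.2 huS⟩
  have h4 : 0 < X.card := card_pos.2 hne
  rcases min_choice (k - 1) (nb G X).card with hm | hm <;> rw [hm] at hScard
  · have : S.card ≤ (nb G X).card := card_le_card hSsub
    omega
  · omega

/-- `I` is a maximum independent set avoiding `v` whose only vertex adjacent to `v` is `w`. -/
structure Priv (G : SimpleGraph V) (a : ℕ) (v w : V) (I : Finset V) : Prop where
  mi : MI G a I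
  notMem : v ∉ I
  mem : w ∈ I
  adj : ∀ u ∈ I, G.Adj v u → u = w

/-- The exchanged maximum independent set. -/
theorem Priv.exch {v w : V} {I : Finset V} (h : Priv G a v w I) :
    MI G a (insert v (I.erase w)) where
  indep := by
    intro x hx y hy hxy
    rw [mem_insert, mem_erase] at hx hy
    rcases hx with rfl | hx <;> rcases hy with rfl | hy
    · exact G.irrefl hxy
    · exact hy.1 (h.adj y hy.2 hxy)
    · exact hx.1 (h.adj x hx.2 hxy.symm)
    · exact h.mi.indep x hx.2 y hy.2 hxy
  card_eq := by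
    rw [card_insert_of_notMem (fun hv => h.notMem (mem_erase.1 hv).2), card_erase_of_mem h.mem]
    have h1 := card_pos.2 ⟨w, h.mem⟩
    have := h.mi.card_eq
    omega

/-- Three private sets at `v` have empty intersection. -/
theorem three_inter (hk : 1 ≤ k) (hB : Bd G a) (hS : St G a k)
    (hn : Fintype.card V ≤ 2 * a + k) {v w₁ w₂ w₃ : V} {I₁ I₂ I₃ : Finset V}
    (h₁ : Priv G a v w₁ I₁) (h₂ : Priv G a v w₂ I₂) (h₃ : Priv G a v w₃ I₃)
    (ha₁ : G.Adj v w₁) (ha₂ : G.Adj v w₂) (ha₃ : G.Adj v w₃)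
    (h12 : w₁ ≠ w₂) (h13 : w₁ ≠ w₃) (h23 : w₂ ≠ w₃) (x : V) :
    ¬ (x ∈ I₁ ∧ x ∈ I₂ ∧ x ∈ I₃) := by
  intro hx
  set X := I₁ ∩ I₂ ∩ I₃ with hXdef
  set Y := I₁ ∪ I₂ ∪ I₃ with hYdef
  have hne : X.Nonempty := ⟨x, by simp [X, hx]⟩
  have hXI : ∀ y ∈ X, y ∈ I₁ ∧ y ∈ I₂ ∧ y ∈ I₃ := by
    intro y hy
    rw [hXdef, mem_inter, mem_inter] at hy
    exact ⟨hy.1.1, hy.1.2, hy.2⟩
  have hXind : ∀ x ∈ X, ∀ y ∈ X, ¬ G.Adj x y :=
    fun x hx y hy => h₁.mi.indep x (hXI x hx).1 y (hXI y hy).1
  have hexp := expansion hk hB hS hne hXind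
  -- the exchanged sets
  have hP := ((PP.of_MI h₁.exch).step hB h₂.exch).step hB h₃.exch
  have hle := hP.le
  have hc1 : (insert v (I₁.erase w₁) ∩ insert v (I₂.erase w₂) ∩ insert v (I₃.erase w₃)).card
      ≤ X.card + 1 := by
    refine le_trans (card_le_card ?_) (card_insert_le v X)
    intro y hy
    rw [mem_inter, mem_inter] at hy
    rw [mem_insert]
    by_cases hyv : y = v
    · exact Or.inl hyv
    right
    have e1 := (mem_erase.1 ((mem_insert.1 hy.1.1).resolve_left hyv)).2
    have e2 := (mem_erase.1 ((mem_insert.1 hy.1.2).resolve_left hyv)).2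
    have e3 := (mem_erase.1 ((mem_insert.1 hy.2).resolve_left hyv)).2
    rw [hXdef, mem_inter, mem_inter]
    exact ⟨⟨e1, e2⟩, e3⟩
  have hw : ∀ j ∈ ({w₁, w₂, w₃} : Finset V), G.Adj v j := by
    intro j hj
    simp only [mem_insert, mem_singleton] at hj
    rcases hj with rfl | rfl | rfl <;> assumption
  have hc3 : ({w₁, w₂, w₃} : Finset V).card = 3 := by
    rw [card_eq_three]
    exact ⟨w₁, w₂, w₃, h12, h13, h23, rfl⟩
  have hc2 : (insert v (I₁.erase w₁) ∪ insert v (I₂.erase w₂) ∪ insert v (I₃.erase w₃)).card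
      ≤ (Y.card - 3) + 1 := by
    have hsub : ({w₁, w₂, w₃} : Finset V) ⊆ Y := by
      intro j hj
      simp only [mem_insert, mem_singleton] at hj
      rw [hYdef, mem_union, mem_union]
      rcases hj with rfl | rfl | rfl
      · exact Or.inl (Or.inl h₁.mem)
      · exact Or.inl (Or.inr h₂.mem)
      · exact Or.inr h₃.mem
    rw [← hc3, ← card_sdiff_of_subset hsub]
    refine le_trans (card_le_card ?_) (card_insert_le v _)
    intro y hy
    rw [mem_insert]
    by_cases hyv : y = v
    · exact Or.inl hyv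
    right
    have hnadj : ¬ G.Adj v y := by
      rw [mem_union, mem_union] at hy
      rcases hy with (hy | hy) | hy
      · exact fun h => (mem_erase.1 ((mem_insert.1 hy).resolve_left hyv)).1
          (h₁.adj y (mem_erase.1 ((mem_insert.1 hy).resolve_left hyv)).2 h)
      · exact fun h => (mem_erase.1 ((mem_insert.1 hy).resolve_left hyv)).1
          (h₂.adj y (mem_erase.1 ((mem_insert.1 hy).resolve_left hyv)).2 h)
      · exact fun h => (mem_erase.1 ((mem_insert.1 hy).resolve_left hyv)).1
          (h₃.adj y (mem_erase.1 ((mem_insert.1 hy).resolve_left hyv)).2 h)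
    rw [mem_sdiff]
    refine ⟨?_, fun hj => hnadj (hw y hj)⟩
    rw [hYdef, mem_union, mem_union]
    rw [mem_union, mem_union] at hy
    rcases hy with (hy | hy) | hy
    · exact Or.inl (Or.inl (mem_erase.1 ((mem_insert.1 hy).resolve_left hyv)).2)
    · exact Or.inl (Or.inr (mem_erase.1 ((mem_insert.1 hy).resolve_left hyv)).2)
    · exact Or.inr (mem_erase.1 ((mem_insert.1 hy).resolve_left hyv)).2
  have hYc : 3 ≤ Y.card := by
    rw [← hc3]
    apply card_le_card
    intro j hj
    simp only [mem_insert, mem_singleton] at hj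
    rw [hYdef, mem_union, mem_union]
    rcases hj with rfl | rfl | rfl
    · exact Or.inl (Or.inl h₁.mem)
    · exact Or.inl (Or.inr h₂.mem)
    · exact Or.inr h₃.mem
  -- disjointness
  have hd1 : Disjoint (nb G X) Y := by
    rw [Finset.disjoint_left]
    intro u hu huY
    obtain ⟨z, hz, hzu⟩ := mem_nb.1 hu
    rw [hYdef, mem_union, mem_union] at huY
    rcases huY with (hy | hy) | hy
    · exact h₁.mi.indep z (hXI z hz).1 u hy hzu
    · exact h₂.mi.indep z (hXI z hz).2.1 u hy hzu
    · exact h₃.mi.indep z (hXI z hz).2.2 u hy hzu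
  have hv1 : v ∉ nb G X ∪ Y := by
    intro hv
    rcases mem_union.1 hv with hv | hv
    · obtain ⟨z, hz, hzv⟩ := mem_nb.1 hv
      have e1 := h₁.adj z (hXI z hz).1 hzv.symm
      have e2 := h₂.adj z (hXI z hz).2.1 hzv.symm
      exact h12 (e1.symm.trans e2)
    · rw [hYdef, mem_union, mem_union] at hv
      rcases hv with (hy | hy) | hy
      · exact h₁.notMem hy
      · exact h₂.notMem hy
      · exact h₃.notMem hy
  have htot : (insert v (nb G X ∪ Y)).card ≤ Fintype.card V := card_le_univ _
  rw [card_insert_of_notMem hv1, card_union_of_disjoint hd1] at htot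
  omega

open Classical in
/-- The degree inequality. -/
theorem degree_ineq (hk : 1 ≤ k) (hB : Bd G a) (hS : St G a k)
    (hn : Fintype.card V ≤ 2 * a + k)
    (hcrit : ∀ v w, G.Adj v w → ∃ I, Priv G a v w I) (v : V) :
    (nb G {v}).card * (a + 1) ≤ 2 * (Fintype.card V - 1) := by
  choose! f hf using fun w (h : G.Adj v w) => hcrit v w h
  have hmem : ∀ w, w ∈ nb G {v} ↔ G.Adj v w := by
    intro w
    rw [mem_nb]
    simp
  -- the set of non-neighbours
  set R := univ \ insert v (nb G {v}) with hR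
  have hRc : R.card + (nb G {v}).card + 1 = Fintype.card V := by
    have h1 : v ∉ nb G {v} := by
      rw [hmem]
      exact G.irrefl
    rw [hR, card_univ_sdiff, card_insert_of_notMem h1]
    have h2 : (insert v (nb G {v})).card ≤ Fintype.card V := card_le_univ _
    rw [card_insert_of_notMem h1] at h2
    omega
  have hsub : ∀ w ∈ nb G {v}, (f w).erase w ⊆ R := by
    intro w hw u hu
    rw [hmem] at hw
    rw [mem_erase] at hu
    rw [hR, mem_sdiff, mem_insert, hmem]
    refine ⟨mem_univ _, ?_⟩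
    rintro (rfl | h)
    · exact (hf w hw).notMem hu.2
    · exact hu.1 ((hf w hw).adj u hu.2 h)
  have hcard : ∀ w ∈ nb G {v}, ((f w).erase w).card = a - 1 := by
    intro w hw
    rw [hmem] at hw
    rw [card_erase_of_mem (hf w hw).mem, (hf w hw).mi.card_eq]
  have hsum : ∑ w ∈ nb G {v}, ((f w).erase w).card
      = ∑ u ∈ R, ((nb G {v}).filter fun w => u ∈ (f w).erase w).card := by
    simp only [card_filter]
    rw [sum_comm]
    apply sum_congr rfl
    intro w hw
    rw [← card_filter]
    congr 1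
    ext u
    rw [mem_filter]
    exact ⟨fun h => ⟨hsub w hw h, h⟩, fun h => h.2⟩
  rw [sum_congr rfl hcard, sum_const, smul_eq_mul] at hsum
  have hle : ∑ u ∈ R, ((nb G {v}).filter fun w => u ∈ (f w).erase w).card ≤ R.card * 2 := by
    rw [← smul_eq_mul]
    apply sum_le_card_nsmul
    intro u _
    by_contra hcon
    rw [not_le] at hcon
    obtain ⟨w₁, hw₁, w₂, hw₂, w₃, hw₃, h12, h13, h23⟩ := two_lt_card.1 hcon
    rw [mem_filter, hmem] at hw₁ hw₂ hw₃
    exact three_inter hk hB hS hn (hf w₁ hw₁.1) (hf w₂ hw₂.1) (hf w₃ hw₃.1) hw₁.1 hw₂.1 hw₃.1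
      h12 h13 h23 u ⟨(mem_erase.1 hw₁.2).2, (mem_erase.1 hw₂.2).2, (mem_erase.1 hw₃.2).2⟩
  rw [← hsum] at hle
  rcases Nat.eq_zero_or_pos a with ha | ha
  · subst ha
    omega
  obtain ⟨b, rfl⟩ : ∃ b, a = b + 1 := ⟨a - 1, by omega⟩
  have e : (nb G {v}).card * (b + 1 + 1) = (nb G {v}).card * (b + 1 - 1) + 2 * (nb G {v}).card := by
    rw [Nat.add_sub_cancel]
    ring
  rw [e]
  omega

omit [DecidableEq V] in
/-- A spanning subgraph in which every edge is critical. -/
theorem exists_critical (hB : Bd G a) : ∃ H : SimpleGraph V, H ≤ G ∧ Bd H a ∧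
    ∀ v w, H.Adj v w → ∃ I, Priv H a v w I := by
  classical
  obtain ⟨H, hH⟩ := (Set.toFinite {H : SimpleGraph V | H ≤ G ∧ Bd H a}).exists_minimal
    ⟨G, le_refl G, hB⟩
  refine ⟨H, hH.prop.1, hH.prop.2, ?_⟩
  intro v w hvw
  have hlt : ¬ Bd (H.deleteEdges {s(v, w)}) a := by
    intro hB'
    have hle : H.deleteEdges {s(v, w)} ≤ H := SimpleGraph.deleteEdges_le _
    have h1 := hH.le_of_le ⟨hle.trans hH.prop.1, hB'⟩ hle
    have h2 := h1 hvw
    rw [SimpleGraph.deleteEdges_adj] at h2
    exact h2.2 (by simp)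
  unfold Bd at hlt
  push Not at hlt
  obtain ⟨I, hI, hcard⟩ := hlt
  have hadj : ∀ x ∈ I, ∀ y ∈ I, H.Adj x y → s(x, y) = s(v, w) := by
    intro x hx y hy hxy
    by_contra hne
    refine hI x hx y hy ?_
    rw [SimpleGraph.deleteEdges_adj]
    exact ⟨hxy, by simpa using hne⟩
  have hvI : v ∈ I := by
    by_contra hv
    have := hH.prop.2 I (by
      intro x hx y hy hxy
      have h := hadj x hx y hy hxy
      rw [Sym2.eq_iff] at h
      rcases h with ⟨rfl, rfl⟩ | ⟨rfl, rfl⟩
      · exact hv hx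
      · exact hv hy)
    omega
  have hwI : w ∈ I := by
    by_contra hw
    have := hH.prop.2 I (by
      intro x hx y hy hxy
      have h := hadj x hx y hy hxy
      rw [Sym2.eq_iff] at h
      rcases h with ⟨rfl, rfl⟩ | ⟨rfl, rfl⟩
      · exact hw hy
      · exact hw hx)
    omega
  have hind : ∀ x ∈ I.erase v, ∀ y ∈ I.erase v, ¬ H.Adj x y := by
    intro x hx y hy hxy
    rw [mem_erase] at hx hy
    have h := hadj x hx.2 y hy.2 hxy
    rw [Sym2.eq_iff] at h
    rcases h with ⟨rfl, rfl⟩ | ⟨rfl, rfl⟩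
    · exact hx.1 rfl
    · exact hy.1 rfl
  have hc := hH.prop.2 _ hind
  rw [card_erase_of_mem hvI] at hc
  refine ⟨I.erase v, ⟨hind, ?_⟩, by simp, mem_erase.2 ⟨hvw.ne', hwI⟩, ?_⟩
  · rw [card_erase_of_mem hvI]
    omega
  · intro u hu hvu
    rw [mem_erase] at hu
    have h := hadj v hvI u hu.2 hvu
    rw [Sym2.eq_iff] at h
    rcases h with ⟨-, rfl⟩ | ⟨h, rfl⟩
    · rfl
    · exact absurd rfl hu.1

omit [DecidableEq V] in
/-- The case `k = 5`. -/
theorem core_five (hB : Bd G a) (hS : St G a 5) (hn1 : Fintype.card V ≤ 2 * a + 5)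
    (hn2 : 2 * a + 4 ≤ Fintype.card V) : a ≤ 1 := by
  classical
  obtain ⟨H, hHG, hBH, hcrit⟩ := exists_critical hB
  have hSH : St H a 5 := by
    intro S hSc
    obtain ⟨I, hI, hd⟩ := hS S hSc
    exact ⟨I, ⟨fun x hx y hy hxy => hI.indep x hx y hy (hHG hxy), hI.card_eq⟩, hd⟩
  by_contra ha
  rw [not_le] at ha
  have hdeg1 : ∀ v, 5 ≤ (nb H {v}).card := by
    intro v
    have h := expansion (le_refl 1 |>.trans (by norm_num)) hBH hSH (X := {v}) (by simp) (by
      intro x hx y hy
      rw [mem_singleton] at hx hy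
      subst hx hy
      exact H.irrefl)
    rw [card_singleton] at h
    omega
  have hdeg2 : ∀ v, (nb H {v}).card * (a + 1) ≤ 2 * (Fintype.card V - 1) :=
    degree_ineq (by norm_num) hBH hSH hn1 hcrit
  have hne : Nonempty V := by
    apply Fintype.card_pos_iff.1
    omega
  obtain ⟨v₀⟩ := hne
  have h5 : 5 * (a + 1) ≤ 2 * (Fintype.card V - 1) :=
    (Nat.mul_le_mul_right _ (hdeg1 v₀)).trans (hdeg2 v₀)
  have hcard : Fintype.card V = 2 * a + 5 := by omega
  have ha3 : a = 2 ∨ a = 3 := by omega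
  have hdeg : ∀ v, (nb H {v}).card = 5 := by
    intro v
    have h1 := hdeg1 v
    have h2 := hdeg2 v
    rcases ha3 with rfl | rfl <;> omega
  have hsum := H.sum_degrees_eq_twice_card_edges
  have hd : ∀ v, H.degree v = 5 := by
    intro v
    rw [← hdeg v, ← SimpleGraph.card_neighborFinset_eq_degree]
    congr 1
    ext u
    rw [SimpleGraph.mem_neighborFinset, mem_nb]
    simp
  rw [sum_congr rfl (fun v _ => hd v), sum_const, card_univ, smul_eq_mul, hcard] at hsum
  omega

end Core

/-! ### Passing to `k = 5` -/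

section Main

variable [Fintype V] {G : SimpleGraph V} {a k : ℕ}

/-- The case `k ≥ 5`. -/
theorem core_ge (hk : 5 ≤ k) (hB : Bd G a) (hS : St G a k) (hn1 : Fintype.card V ≤ 2 * a + k)
    (hn2 : 2 * a + k ≤ Fintype.card V + 1) : a ≤ 1 := by
  classical
  obtain ⟨T, -, hT⟩ := exists_subset_card_eq (s := (univ : Finset V)) (n := k - 5) (by
    rw [card_univ]
    omega)
  have hcard : Fintype.card {v : V // v ∉ T} = Fintype.card V - (k - 5) := by
    rw [Fintype.card_subtype_compl, Fintype.card_coe, hT]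
  refine core_five (G := G.comap (Subtype.val : {v : V // v ∉ T} → V)) (a := a) ?_ ?_ ?_ ?_
  · intro I hI
    have h := hB (I.map (Function.Embedding.subtype _)) (by
      intro x hx y hy hxy
      rw [mem_map] at hx hy
      obtain ⟨x', hx', rfl⟩ := hx
      obtain ⟨y', hy', rfl⟩ := hy
      exact hI x' hx' y' hy' hxy)
    rwa [card_map] at h
  · intro S hSc
    obtain ⟨I, hI, hd⟩ := hS (S.map (Function.Embedding.subtype _) ∪ T) (by
      refine (card_union_le _ _).trans ?_
      rw [card_map, hT]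
      omega)
    rw [disjoint_union_right] at hd
    refine ⟨I.subtype (fun v => v ∉ T), ⟨?_, ?_⟩, ?_⟩
    · intro x hx y hy hxy
      rw [mem_subtype] at hx hy
      exact hI.indep _ hx _ hy hxy
    · rw [card_subtype, filter_true_of_mem, hI.card_eq]
      intro x hx
      exact (Finset.disjoint_left.1 hd.2) hx
    · rw [Finset.disjoint_left]
      intro x hx hxS
      rw [mem_subtype] at hx
      refine (Finset.disjoint_left.1 hd.1) hx ?_
      rw [mem_map]
      exact ⟨x, hxS, rfl⟩
  · rw [hcard]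
    omega
  · rw [hcard]
    omega

theorem bd_indepNum (G : SimpleGraph V) : Bd G G.indepNum := by
  intro I hI
  apply SimpleGraph.IsIndepSet.card_le_indepNum
  intro x hx y hy _
  exact hI x hx y hy

theorem st_of_stable (hst : IsStable k 0 G) (hk : k ≤ Fintype.card V) : St G G.indepNum k := by
  classical
  intro S hSc
  obtain ⟨S', hSS', hS'⟩ := exists_superset_card_eq hSc hk
  have h := hst S' hS'
  obtain ⟨I, hI⟩ := (G.induce {v : V | v ∉ S'}).exists_isNIndepSet_indepNum
  have hle : G.indepNum ≤ I.card := by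
    rw [hI.card_eq]
    push_cast at h
    omega
  obtain ⟨J, hJI, hJ⟩ := exists_subset_card_eq hle
  refine ⟨J.map (Function.Embedding.subtype _), ⟨?_, ?_⟩, ?_⟩
  · intro x hx y hy hxy
    rw [mem_map] at hx hy
    obtain ⟨x', hx', rfl⟩ := hx
    obtain ⟨y', hy', rfl⟩ := hy
    refine hI.isIndepSet (hJI hx') (hJI hy') ?_ hxy
    rintro rfl
    exact G.irrefl hxy
  · rw [card_map, hJ]
  · rw [Finset.disjoint_left]
    intro x hx hxS
    rw [mem_map] at hx
    obtain ⟨x', hx', rfl⟩ := hx
    exact x'.2 (hSS' hxS)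

/-- Tight `(k, 0)`-stable graphs for `k ≥ 5` are complete. -/
theorem complete_of_tight (hk : 5 ≤ k) (h : IsTightStable k G) :
    G = ⊤ ∧ (Fintype.card V = k + 1 ∨ Fintype.card V = k + 2) := by
  classical
  obtain ⟨hst, htight⟩ := h
  have hV : 0 < Fintype.card V := by
    rcases Nat.eq_zero_or_pos (Fintype.card V) with h0 | h0
    · rw [h0] at htight
      push_cast at htight
      omega
    · exact h0
  obtain ⟨v₀⟩ := Fintype.card_pos_iff.1 hV
  have hpos : 1 ≤ G.indepNum := by
    have := bd_indepNum G {v₀} (by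
      intro x hx y hy
      rw [mem_singleton] at hx hy
      subst hx hy
      exact G.irrefl)
    simpa using this
  have hkn : k ≤ Fintype.card V := by omega
  have h1 := core_ge hk (bd_indepNum G) (st_of_stable hst hkn) (by omega) (by omega)
  have h2 : G.indepNum = 1 := by omega
  refine ⟨?_, by omega⟩
  ext x y
  rw [SimpleGraph.top_adj]
  refine ⟨fun hxy => hxy.ne, fun hne => ?_⟩
  by_contra hxy
  have := bd_indepNum G {x, y} (by
    intro u hu v hv huv
    simp only [mem_insert, mem_singleton] at hu hv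
    rcases hu with rfl | rfl <;> rcases hv with rfl | rfl
    · exact G.irrefl huv
    · exact hxy huv
    · exact hxy huv.symm
    · exact G.irrefl huv)
  rw [h2, card_pair hne] at this
  omega

end Main

/-! ### The case `k = 4` -/

/-- The circulant graph on `8` vertices with connection set `{2, 3, 5, 6}`. -/
def exG : SimpleGraph (Fin 8) where
  Adj x y := (x - y : Fin 8) ∈ ({2, 3, 5, 6} : Finset (Fin 8))
  symm := ⟨by decide⟩
  loopless := ⟨by decide⟩

instance : DecidableRel exG.Adj := fun x y =>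
  inferInstanceAs (Decidable ((x - y : Fin 8) ∈ ({2, 3, 5, 6} : Finset (Fin 8))))

theorem exG_three : ∀ x y z : Fin 8, x ≠ y → x ≠ z → y ≠ z →
    exG.Adj x y ∨ exG.Adj x z ∨ exG.Adj y z := by
  decide

theorem exG_four : ∀ x y z w : Fin 8, ¬ (exG.Adj x y ∧ exG.Adj x z ∧ exG.Adj x w ∧
    exG.Adj y z ∧ exG.Adj y w ∧ exG.Adj z w) := by
  decide

theorem exG_indepNum : exG.indepNum = 2 := by
  apply le_antisymm
  · obtain ⟨I, hI⟩ := exG.exists_isNIndepSet_indepNum
    by_contra hcon
    rw [not_le, ← hI.card_eq, two_lt_card] at hcon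
    obtain ⟨x, hx, y, hy, z, hz, hxy, hxz, hyz⟩ := hcon
    rcases exG_three x y z hxy hxz hyz with h | h | h
    · exact hI.isIndepSet hx hy hxy h
    · exact hI.isIndepSet hx hz hxz h
    · exact hI.isIndepSet hy hz hyz h
  · have h : exG.IsIndepSet (({0, 1} : Finset (Fin 8)) : Set (Fin 8)) := by
      intro x hx y hy hxy
      simp only [coe_insert, coe_singleton, Set.mem_insert_iff, Set.mem_singleton_iff] at hx hy
      rcases hx with rfl | rfl <;> rcases hy with rfl | rfl
      · exact absurd rfl hxy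
      · decide
      · decide
      · exact absurd rfl hxy
    have h2 := h.card_le_indepNum
    rwa [card_pair (by decide)] at h2

theorem exG_tight : IsTightStable 4 exG := by
  refine ⟨?_, ?_⟩
  · intro S hS
    rw [exG_indepNum]
    have hc : (univ \ S).card = 4 := by
      rw [card_univ_sdiff, Fintype.card_fin, hS]
    obtain ⟨x, T, hxT, hT, hTc⟩ := card_eq_succ.1 hc
    obtain ⟨y, z, w, hyz, hyw, hzw, rfl⟩ := card_eq_three.1 hTc
    have hmem : ∀ u : Fin 8, u ∈ insert x ({y, z, w} : Finset (Fin 8)) → u ∉ S := by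
      intro u hu
      rw [hT, mem_sdiff] at hu
      exact hu.2
    have hpair : ∃ u v, u ∉ S ∧ v ∉ S ∧ u ≠ v ∧ ¬ exG.Adj u v := by
      have hxy : x ≠ y := by rintro rfl; simp at hxT
      have hxz : x ≠ z := by rintro rfl; simp at hxT
      have hxw : x ≠ w := by rintro rfl; simp at hxT
      have h4 := exG_four x y z w
      simp only [not_and_or] at h4
      rcases h4 with h | h | h | h | h | h
      · exact ⟨x, y, hmem x (by simp), hmem y (by simp), hxy, h⟩
      · exact ⟨x, z, hmem x (by simp), hmem z (by simp), hxz, h⟩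
      · exact ⟨x, w, hmem x (by simp), hmem w (by simp), hxw, h⟩
      · exact ⟨y, z, hmem y (by simp), hmem z (by simp), hyz, h⟩
      · exact ⟨y, w, hmem y (by simp), hmem w (by simp), hyw, h⟩
      · exact ⟨z, w, hmem z (by simp), hmem w (by simp), hzw, h⟩
    obtain ⟨u, v, hu, hv, huv, hadj⟩ := hpair
    have hne : (⟨u, hu⟩ : {v : Fin 8 | v ∉ S}) ≠ ⟨v, hv⟩ := by
      intro h
      exact huv (congrArg Subtype.val h)
    have hi : (exG.induce {v : Fin 8 | v ∉ S}).IsIndepSet
        (({⟨u, hu⟩, ⟨v, hv⟩} : Finset {v : Fin 8 | v ∉ S}) : Set {v : Fin 8 | v ∉ S}) := by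
      intro x hx y hy hxy
      simp only [coe_insert, coe_singleton, Set.mem_insert_iff, Set.mem_singleton_iff] at hx hy
      rcases hx with rfl | rfl <;> rcases hy with rfl | rfl
      · exact absurd rfl hxy
      · exact hadj
      · exact fun h => hadj h.symm
      · exact absurd rfl hxy
    have h2 := hi.card_le_indepNum
    rw [card_pair hne] at h2
    push_cast
    omega
  · rw [exG_indepNum, Fintype.card_fin]
    norm_num

/-- For every `k ≥ 5` every tight `(k, 0)`-stable graph is isomorphic to `K_{k+1}` or `K_{k+2}`,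
whereas for `k = 4` there is a tight `(4, 0)`-stable graph (on `8` vertices) isomorphic to neither
`K_5` nor `K_6`. -/
theorem result :
    (∀ k : ℕ, 5 ≤ k → ∀ (V : Type*) [Fintype V] (G : SimpleGraph V), IsTightStable k G →
      Nonempty (G ≃g (⊤ : SimpleGraph (Fin (k + 1)))) ∨
        Nonempty (G ≃g (⊤ : SimpleGraph (Fin (k + 2))))) ∧
    ∃ G : SimpleGraph (Fin 8), IsTightStable 4 G ∧
      ¬ Nonempty (G ≃g (⊤ : SimpleGraph (Fin 5))) ∧
        ¬ Nonempty (G ≃g (⊤ : SimpleGraph (Fin 6))) := by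
  refine ⟨?_, exG, exG_tight, ?_, ?_⟩
  · intro k hk V _ G hG
    obtain ⟨rfl, hc | hc⟩ := complete_of_tight hk hG
    · exact Or.inl ⟨SimpleGraph.Iso.completeGraph (Fintype.equivFinOfCardEq hc)⟩
    · exact Or.inr ⟨SimpleGraph.Iso.completeGraph (Fintype.equivFinOfCardEq hc)⟩
  · rintro ⟨e⟩
    have := Fintype.card_congr e.toEquiv
    simp at this
  · rintro ⟨e⟩
    have := Fintype.card_congr e.toEquiv
    simp at this

end Pool.Agent.Results.MP_476b05_co.TightStable
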